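import Pool.Agent.Helper23.HM.Defs
import Pool.Agent.Helper83.OP.Arcs

/-!
# HM: a drawing of the subdivision gives a drawing of the graph
-/

set_option autoImplicit false

open Set
open Pool.Agent.Helper83.OP Pool.Agent.Helper95.UP Pool.Agent.Helper23.HM

namespace Pool.Agent.Helper43.HM

theorem cat {α β : Set (ℝ × ℝ)} {a b c : ℝ × ℝ} (h : IsArc α a b) (h' : IsArc β b c)
    (hne : a ≠ c) : ∃ δ ⊆ α ∪ β, IsArc δ a c := by
  obtain ⟨g, gc, gi, g0, g1, gα⟩ := h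
  have hcl : IsClosed β := h'.isClosed
  have hb : b ∈ β := h'.left_mem
  obtain ⟨k, kc, ki, k0, k1, kβ⟩ := h'
  have hT : IsClosed (Icc (0 : ℝ) 1 ∩ g ⁻¹' β) := gc.preimage_isClosed_of_isClosed isClosed_Icc hcl
  have hT' : IsCompact (Icc (0 : ℝ) 1 ∩ g ⁻¹' β) := isCompact_Icc.of_isClosed_subset hT
    inter_subset_left
  have hTn : (Icc (0 : ℝ) 1 ∩ g ⁻¹' β).Nonempty :=
    ⟨1, ⟨zero_le_one, le_rfl⟩, by show g 1 ∈ β; rw [g1]; exact hb⟩
  obtain ⟨t0, ⟨ht0, ht0β⟩, hmin⟩ := hT'.exists_isLeast hTn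
  have hp : g t0 ∈ β := ht0β
  rw [← kβ] at hp
  obtain ⟨u, hu, hku⟩ := hp
  have hsubα : g '' Icc 0 t0 ⊆ α := by
    rw [← gα]
    exact image_mono (Icc_subset_Icc le_rfl ht0.2)
  have hsubβ : k '' Icc u 1 ⊆ β := by
    rw [← kβ]
    exact image_mono (Icc_subset_Icc hu.1 le_rfl)
  rcases eq_or_lt_of_le hu.2 with hu1 | hu1
  · subst hu1
    have h0 : t0 ≠ 0 := by
      rintro rfl
      exact hne (by rw [← g0, ← k1, hku])
    have h3 := isArc_image gc gi le_rfl (lt_of_le_of_ne ht0.1 (Ne.symm h0)) ht0.2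
    rw [g0, ← hku, k1] at h3
    exact ⟨_, hsubα.trans subset_union_left, h3⟩
  · have h4 := isArc_image kc ki hu.1 hu1 le_rfl
    rw [k1, hku] at h4
    by_cases h0 : t0 = 0
    · subst h0
      rw [g0] at h4
      exact ⟨_, hsubβ.trans subset_union_right, h4⟩
    · have h3 := isArc_image gc gi le_rfl (lt_of_le_of_ne ht0.1 (Ne.symm h0)) ht0.2
      rw [g0] at h3
      refine ⟨_, union_subset_union hsubα hsubβ, h3.union h4 ?_⟩
      rintro x ⟨s, hs, rfl⟩ hx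
      have h5 : s ∈ Icc (0 : ℝ) 1 ∩ g ⁻¹' β := ⟨⟨hs.1, hs.2.trans ht0.2⟩, hsubβ hx⟩
      have h6 : s = t0 := le_antisymm hs.2 (hmin h5)
      rw [h6]

section

variable {V : Type} {m : ℕ} {G : SimpleGraph V} {pos : SV V m → ℝ × ℝ}
  {γ : Sym2 (SV V m) → ℝ → ℝ × ℝ}

theorem arc_pe (hd : IsDrawing (Sd m G) pos γ) {f : Sym2 V} (hf : f ∈ G.edgeSet) {t : ℕ}
    (ht : t < m) : IsArc (γ (pe m f t) '' Icc 0 1) (pos (pt m f t)) (pos (pt m f (t + 1))) := by
  have hmem : pe m f t ∈ (Sd m G).edgeSet := Sd_pe hf ht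
  rcases hd.ends _ _ (Sd_adj hf ht) with ⟨h1, h2⟩ | ⟨h1, h2⟩
  · exact ⟨γ (pe m f t), hd.cont _ hmem, hd.inj _ hmem, h1, h2, rfl⟩
  · exact IsArc.symm ⟨γ (pe m f t), hd.cont _ hmem, hd.inj _ hmem, h1, h2, rfl⟩

/-- a vertex on the curve of an edge is an end -/
theorem mem_end (hd : IsDrawing (Sd m G) pos γ) {f : Sym2 V} (hf : f ∈ G.edgeSet) {t : ℕ}
    (ht : t < m) {x : SV V m} (hx : pos x ∈ γ (pe m f t) '' Icc 0 1) :
    x = pt m f t ∨ x = pt m f (t + 1) := by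
  have hmem : pe m f t ∈ (Sd m G).edgeSet := Sd_pe hf ht
  obtain ⟨s, hs, hsx⟩ := hx
  by_cases h : s ∈ Ioo (0 : ℝ) 1
  · exact absurd hsx (hd.avoid _ hmem s h x)
  · have h2 : s = 0 ∨ s = 1 := by
      by_contra hcon
      push Not at hcon
      exact h ⟨lt_of_le_of_ne hs.1 (Ne.symm hcon.1), lt_of_le_of_ne hs.2 hcon.2⟩
    rcases hd.ends _ _ (Sd_adj hf ht) with ⟨h3, h4⟩ | ⟨h3, h4⟩
    · rcases h2 with rfl | rfl
      · exact Or.inl (hd.pos_inj (hsx.symm.trans h3))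
      · exact Or.inr (hd.pos_inj (hsx.symm.trans h4))
    · rcases h2 with rfl | rfl
      · exact Or.inr (hd.pos_inj (hsx.symm.trans h3))
      · exact Or.inl (hd.pos_inj (hsx.symm.trans h4))

/-- the points of the curve of an edge which are not inner points are vertices -/
theorem not_inner (hd : IsDrawing (Sd m G) pos γ) {f : Sym2 V} (hf : f ∈ G.edgeSet) {t : ℕ}
    (ht : t < m) {p : ℝ × ℝ} (hp : p ∈ γ (pe m f t) '' Icc 0 1)
    (hp' : p ∉ γ (pe m f t) '' Ioo 0 1) : p = pos (pt m f t) ∨ p = pos (pt m f (t + 1)) := by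
  obtain ⟨s, hs, hsx⟩ := hp
  have h2 : s = 0 ∨ s = 1 := by
    by_contra hcon
    push Not at hcon
    exact hp' ⟨s, ⟨lt_of_le_of_ne hs.1 (Ne.symm hcon.1), lt_of_le_of_ne hs.2 hcon.2⟩, hsx⟩
  rcases hd.ends _ _ (Sd_adj hf ht) with ⟨h3, h4⟩ | ⟨h3, h4⟩
  · rcases h2 with rfl | rfl
    · exact Or.inl (hsx.symm.trans h3)
    · exact Or.inr (hsx.symm.trans h4)
  · rcases h2 with rfl | rfl
    · exact Or.inr (hsx.symm.trans h3)
    · exact Or.inl (hsx.symm.trans h4)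

theorem long_arc (hd : IsDrawing (Sd m G) pos γ) {f : Sym2 V} (hf : f ∈ G.edgeSet) :
    ∀ n, 1 ≤ n → n ≤ m → ∃ δ : Set (ℝ × ℝ), (∀ p ∈ δ, ∃ t < m, p ∈ γ (pe m f t) '' Icc 0 1) ∧
      IsArc δ (pos (pt m f 0)) (pos (pt m f n)) := by
  intro n
  induction n with
  | zero => intro h; omega
  | succ n ih =>
    intro _ hn
    rcases Nat.eq_zero_or_pos n with h0 | h0
    · subst h0
      exact ⟨_, fun p hp => ⟨0, by omega, hp⟩, arc_pe hd hf (by omega)⟩
    · obtain ⟨δ, h1, h2⟩ := ih h0 (by omega)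
      have hne : pos (pt m f 0) ≠ pos (pt m f (n + 1)) := by
        intro h
        have := pt_inj (by omega) (not_diag hf) (by omega) (by omega) (hd.pos_inj h)
        omega
      obtain ⟨δ', h3, h4⟩ := cat h2 (arc_pe hd hf (t := n) (by omega)) hne
      refine ⟨δ', fun p hp => ?_, h4⟩
      rcases h3 hp with h5 | h5
      · exact h1 p h5
      · exact ⟨n, by omega, h5⟩

end

theorem encard_lt_union {β : Type} (B : ℕ → Set β) (k n : ℕ) (h : ∀ s < n, (B s).encard ≤ (k : ℕ∞)) :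
    {x | ∃ s < n, x ∈ B s}.encard ≤ ((k * n : ℕ) : ℕ∞) := by
  induction n with
  | zero => simp
  | succ n ih =>
    have h1 : {x | ∃ s < n + 1, x ∈ B s} ⊆ {x | ∃ s < n, x ∈ B s} ∪ B n := by
      rintro x ⟨s, hs, hx⟩
      rcases Nat.lt_succ_iff_lt_or_eq.1 hs with h2 | h2
      · exact Or.inl ⟨s, h2, hx⟩
      · subst h2
        exact Or.inr hx
    refine (encard_le_encard h1).trans ((encard_union_le _ _).trans ?_)
    have h2 := ih fun s hs => h s (by omega)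
    have h3 := h n (by omega)
    calc {x | ∃ s < n, x ∈ B s}.encard + (B n).encard ≤ ((k * n : ℕ) : ℕ∞) + (k : ℕ∞) :=
          add_le_add h2 h3
      _ = ((k * (n + 1) : ℕ) : ℕ∞) := by
          push_cast
          ring

theorem s1 {V : Type} [Finite V] (m k : ℕ) (hm : 1 ≤ m) (G : SimpleGraph V)
    (h : KPl k (Sd m G)) : KPl (k * m) G := by
  classical
  obtain ⟨pos', γ', hd, hcr⟩ := h
  have hE : ∀ f : G.edgeSet, ∃ g : ℝ → ℝ × ℝ, ContinuousOn g (Icc 0 1) ∧ InjOn g (Icc 0 1) ∧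
      g 0 = pos' (Sum.inl (ea f.1)) ∧ g 1 = pos' (Sum.inl (eb f.1)) ∧
      ∀ t ∈ Icc (0 : ℝ) 1, ∃ s < m, g t ∈ γ' (pe m f.1 s) '' Icc 0 1 := by
    intro f
    obtain ⟨δ, h1, g, g1, g2, g3, g4, g5⟩ := long_arc hd f.2 m hm le_rfl
    refine ⟨g, g1, g2, by rw [g3, pt_zero], by rw [g4, pt_m hm], fun t ht => ?_⟩
    exact h1 _ (g5 ▸ ⟨t, ht, rfl⟩)
  choose g gc gi g0 g1 gA using hE
  set γ : Sym2 V → ℝ → ℝ × ℝ := fun e => if he : e ∈ G.edgeSet then g ⟨e, he⟩ else fun _ => 0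
    with hγ
  have hγe : ∀ e (he : e ∈ G.edgeSet), γ e = g ⟨e, he⟩ := fun e he => by
    rw [hγ]
    exact dif_pos he
  set pos : V → ℝ × ℝ := fun v => pos' (Sum.inl v) with hpos
  -- a vertex of `V` on the curve
  have hvert : ∀ e ∈ G.edgeSet, ∀ s < m, ∀ w : V, pos w ∈ γ' (pe m e s) '' Icc 0 1 →
      w = ea e ∨ w = eb e := by
    intro e he s hs w hw
    rcases mem_end hd he hs hw with h1 | h1
    · rcases pt_eq_inl hs.le h1.symm with h2 | h2
      · exact Or.inl h2.2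
      · exact Or.inr h2.2
    · rcases pt_eq_inl (by omega) h1.symm with h2 | h2
      · exact Or.inl h2.2
      · exact Or.inr h2.2
  have havoid : ∀ e ∈ G.edgeSet, ∀ t ∈ Ioo (0 : ℝ) 1, ∀ w : V, γ e t ≠ pos w := by
    intro e he t ht w hw
    have htI : t ∈ Icc (0 : ℝ) 1 := Ioo_subset_Icc_self ht
    obtain ⟨s, hs, h1⟩ := gA ⟨e, he⟩ t htI
    rw [← hγe e he, hw] at h1
    rcases hvert e he s hs w h1 with h2 | h2
    · have h3 : g ⟨e, he⟩ t = g ⟨e, he⟩ 0 := by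
        rw [g0, ← hγe e he, hw, h2]
      have := gi ⟨e, he⟩ htI (by norm_num) h3
      exact ht.1.ne' this
    · have h3 : g ⟨e, he⟩ t = g ⟨e, he⟩ 1 := by
        rw [g1, ← hγe e he, hw, h2]
      have := gi ⟨e, he⟩ htI (by norm_num) h3
      exact ht.2.ne this
  refine ⟨pos, γ, ⟨?_, ?_, ?_, ?_, ?_⟩, ?_⟩
  · intro v w hvw
    exact Sum.inl_injective (hd.pos_inj hvw)
  · intro u v huv
    have he : s(u, v) ∈ G.edgeSet := huv
    have h1 := eab s(u, v)
    rw [hγe _ he, g0, g1]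
    rcases Sym2.eq_iff.1 h1 with ⟨h2, h3⟩ | ⟨h2, h3⟩
    · left
      rw [h2, h3]
      exact ⟨rfl, rfl⟩
    · right
      rw [h2, h3]
      exact ⟨rfl, rfl⟩
  · intro e he
    rw [hγe e he]
    exact gc _
  · intro e he
    rw [hγe e he]
    exact gi _
  · exact fun e he t ht w => havoid e he t ht w
  · intro e he
    -- inner points
    have hinner : ∀ f (hf : f ∈ G.edgeSet), ∀ f' (hf' : f' ∈ G.edgeSet), f ≠ f' → ∀ p,
        p ∈ γ f '' Ioo (0 : ℝ) 1 → ∀ s < m, ∀ s' < m, p ∈ γ' (pe m f s) '' Icc 0 1 →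
        p ∈ γ' (pe m f' s') '' Icc 0 1 → p ∈ γ' (pe m f s) '' Ioo 0 1 := by
      intro f hf f' hf' hne p hp s hs s' hs' h1 h2
      by_contra hcon
      have key : ∀ t, t ≤ m → p = pos' (pt m f t) → False := by
        intro t ht h3
        have h4 : ∃ t' ≤ m, pt m f t = pt m f' t' := by
          rw [h3] at h2
          rcases mem_end hd hf' hs' h2 with h5 | h5
          · exact ⟨s', hs'.le, h5⟩
          · exact ⟨s' + 1, by omega, h5⟩
        obtain ⟨t', ht', h4⟩ := h4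
        cases hc : pt m f t with
        | inl w =>
          obtain ⟨r, hr, hrp⟩ := hp
          refine havoid f hf r hr w ?_
          rw [hrp, h3, hc]
        | inr q =>
          have h5 := (pt_eq_inr hc).2.2.1
          rw [h4] at hc
          have h6 := (pt_eq_inr hc).2.2.1
          exact hne (h5.symm.trans h6)
      rcases not_inner hd hf hs h1 hcon with h3 | h3
      · exact key s hs.le h3
      · exact key (s + 1) (by omega) h3
    set F : Sym2 (SV V m) × (ℝ × ℝ) → Sym2 V × (ℝ × ℝ) := fun q =>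
      (if h : ∃ f' t', ¬ f'.IsDiag ∧ t' < m ∧ q.1 = pe m f' t' then h.choose else e, q.2) with hF
    refine (encard_le_encard (t := {x | ∃ s < m, x ∈ F '' (crossSet (Sd m G) γ' (pe m e s))})
      ?_).trans (encard_lt_union _ k m fun s hs => ?_)
    · rintro ⟨f', p⟩ ⟨hf', hne, hp, hp'⟩
      simp only at hf' hne hp hp'
      have hsub : ∀ f (hf : f ∈ G.edgeSet), p ∈ γ f '' Ioo (0 : ℝ) 1 →
          ∃ s < m, p ∈ γ' (pe m f s) '' Icc 0 1 := by
        rintro f hf ⟨t, ht, rfl⟩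
        rw [hγe f hf]
        exact gA ⟨f, hf⟩ t (Ioo_subset_Icc_self ht)
      obtain ⟨s, hs, h1⟩ := hsub e he hp
      obtain ⟨s', hs', h2⟩ := hsub f' hf' hp'
      have h3 := hinner e he f' hf' (Ne.symm hne) p hp s hs s' hs' h1 h2
      have h4 := hinner f' hf' e he hne p hp' s' hs' s hs h2 h1
      refine ⟨s, hs, (pe m f' s', p), ⟨Sd_pe hf' hs', ?_, h3, h4⟩, ?_⟩
      · intro h5
        exact hne (pe_inj (not_diag hf') (not_diag he) hs' hs h5).1
      · have hex : ∃ f'' t', ¬ f''.IsDiag ∧ t' < m ∧ pe m f' s' = pe m f'' t' :=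
          ⟨f', s', not_diag hf', hs', rfl⟩
        rw [hF]
        simp only
        rw [dif_pos hex]
        obtain ⟨t', h5, h6, h7⟩ := hex.choose_spec
        rw [(pe_inj (not_diag hf') h5 hs' h6 h7).1.symm]
    · exact (encard_image_le _ _).trans (hcr _ (Sd_pe he hs))

end Pool.Agent.Helper43.HM
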