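import Pool.Agent.Helper23.HM.Defs
import Pool.Agent.Helper83.OP.Final

/-!
# HM: the subdivision without one edge
-/

open Set
open Pool.Agent.Helper83.OP Pool.Agent.Helper95.UP Pool.Agent.Helper23.HM

namespace Pool.Agent.Helper43.HM

theorem SB_del {V : Type} {m : ℕ} {S S' : Sym2 V → ℕ → Prop} {e : Sym2 V} {i : ℕ}
    (he : ¬ e.IsDiag) (hi : i < m)
    (hS : ∀ f t, ¬ f.IsDiag → t < m → (S f t ↔ S' f t ∧ ¬ (f = e ∧ t = i))) :
    (SB m S').deleteEdges {pe m e i} = SB m S := by
  rw [← SimpleGraph.edgeSet_inj, SimpleGraph.edgeSet_deleteEdges]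
  ext x
  rw [Set.mem_diff, Set.mem_singleton_iff, SB_edge, SB_edge]
  constructor
  · rintro ⟨⟨f, t, h1, h2, h3, rfl⟩, h4⟩
    refine ⟨f, t, h1, (hS f t h1 h3).2 ⟨h2, ?_⟩, h3, rfl⟩
    rintro ⟨rfl, rfl⟩
    exact h4 rfl
  · rintro ⟨f, t, h1, h2, h3, rfl⟩
    obtain ⟨h4, h5⟩ := (hS f t h1 h3).1 h2
    refine ⟨⟨f, t, h1, h4, h3, rfl⟩, ?_⟩
    intro h6
    exact h5 (pe_inj h1 he h3 hi h6)

theorem SB_congr {V : Type} {m : ℕ} {S S' : Sym2 V → ℕ → Prop}
    (hS : ∀ f t, ¬ f.IsDiag → t < m → (S f t ↔ S' f t)) : SB m S = SB m S' := by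
  rw [← SimpleGraph.edgeSet_inj]
  ext x
  rw [SB_edge, SB_edge]
  constructor
  · rintro ⟨f, t, h1, h2, h3, rfl⟩
    exact ⟨f, t, h1, (hS f t h1 h3).1 h2, h3, rfl⟩
  · rintro ⟨f, t, h1, h2, h3, rfl⟩
    exact ⟨f, t, h1, (hS f t h1 h3).2 h2, h3, rfl⟩

/-- the edges of `e` with numbers less than `i` or at least `j` -/
def PA {V : Type} (G : SimpleGraph V) (e : Sym2 V) (i j : ℕ) (f : Sym2 V) (t : ℕ) : Prop :=
  f ∈ G.edgeSet ∧ (f = e → t < i ∨ j ≤ t)

theorem s3 {V : Type} [Finite V] (m : ℕ) (hm : 1 ≤ m) (G : SimpleGraph V) (e : Sym2 V)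
    (he : e ∈ G.edgeSet) (t : ℕ) (ht : t < m) (h : KPl 1 (Sd m (G.deleteEdges {e}))) :
    KPl 1 ((Sd m G).deleteEdges {pe m e t}) := by
  have hed : ¬ e.IsDiag := not_diag he
  have h0 : KPl 1 (SB m (PA G e 0 m)) := by
    have h1 : SB m (PA G e 0 m) = Sd m (G.deleteEdges {e}) := by
      unfold Sd
      refine SB_congr ?_
      intro f s _ hs
      unfold PA
      rw [SimpleGraph.edgeSet_deleteEdges, Set.mem_diff, Set.mem_singleton_iff]
      constructor
      · rintro ⟨h1, h2⟩
        refine ⟨h1, fun h3 => ?_⟩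
        have := h2 h3
        omega
      · rintro ⟨h1, h2⟩
        exact ⟨h1, fun h3 => absurd h3 h2⟩
    rw [h1]
    exact h
  -- the first part of the edge
  have h1 : ∀ i ≤ t, KPl 1 (SB m (PA G e i m)) := by
    intro i
    induction i with
    | zero => intro _; exact h0
    | succ i ih =>
      intro hi
      have h2 := ih (by omega)
      have hadj : (SB m (PA G e (i + 1) m)).Adj (pt m e (i + 1)) (pt m e i) :=
        ⟨e, i, hed, ⟨he, fun _ => Or.inl (by omega)⟩, by omega, Sym2.eq_swap⟩
      refine pendant _ (pt m e (i + 1)) (pt m e i) hadj ?_ ?_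
      · unfold deg
        rw [Set.ncard_eq_one]
        refine ⟨pt m e i, ?_⟩
        ext y
        rw [Set.mem_singleton_iff]
        constructor
        · intro hy
          rcases SB_nbr_inner (by omega) (by omega) hy with ⟨⟨-, h3⟩, -⟩ | ⟨-, h3⟩
          · have := h3 rfl
            omega
          · exact h3
        · rintro rfl
          exact hadj
      · have h3 : s(pt m e (i + 1), pt m e i) = pe m e i := Sym2.eq_swap
        rw [h3, SB_del (S := PA G e i m) hed (by omega)]
        · exact h2
        · intro f s _ hs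
          unfold PA
          constructor
          · rintro ⟨h4, h5⟩
            refine ⟨⟨h4, fun h6 => ?_⟩, ?_⟩
            · have := h5 h6
              omega
            · rintro ⟨h6, h7⟩
              have := h5 h6
              omega
          · rintro ⟨⟨h4, h5⟩, h6⟩
            refine ⟨h4, fun h7 => ?_⟩
            have h8 := h5 h7
            by_contra hno
            exact h6 ⟨h7, by omega⟩
  -- the last part of the edge
  have h2 : ∀ k, k + t + 1 ≤ m → KPl 1 (SB m (PA G e t (m - k))) := by
    intro k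
    induction k with
    | zero => intro _; exact h1 t le_rfl
    | succ k ih =>
      intro hk
      have h3 := ih (by omega)
      set j := m - (k + 1) with hj
      have hj1 : m - k = j + 1 := by omega
      rw [hj1] at h3
      have hadj : (SB m (PA G e t j)).Adj (pt m e j) (pt m e (j + 1)) :=
        ⟨e, j, hed, ⟨he, fun _ => Or.inr le_rfl⟩, by omega, rfl⟩
      refine pendant _ (pt m e j) (pt m e (j + 1)) hadj ?_ ?_
      · unfold deg
        rw [Set.ncard_eq_one]
        refine ⟨pt m e (j + 1), ?_⟩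
        ext y
        rw [Set.mem_singleton_iff]
        constructor
        · intro hy
          rcases SB_nbr_inner (by omega) (by omega) hy with ⟨-, h4⟩ | ⟨⟨-, h4⟩, -⟩
          · exact h4
          · have := h4 rfl
            omega
        · rintro rfl
          exact hadj
      · have h4 : s(pt m e j, pt m e (j + 1)) = pe m e j := rfl
        rw [h4, SB_del (S := PA G e t (j + 1)) hed (by omega)]
        · exact h3
        · intro f s _ hs
          unfold PA
          constructor
          · rintro ⟨h5, h6⟩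
            refine ⟨⟨h5, fun h7 => ?_⟩, ?_⟩
            · have := h6 h7
              omega
            · rintro ⟨h7, h8⟩
              have := h6 h7
              omega
          · rintro ⟨⟨h5, h6⟩, h7⟩
            refine ⟨h5, fun h8 => ?_⟩
            have h9 := h6 h8
            by_contra hno
            exact h7 ⟨h8, by omega⟩
  have h3 := h2 (m - (t + 1)) (by omega)
  rw [show m - (m - (t + 1)) = t + 1 by omega] at h3
  unfold Sd
  rw [SB_del (S := PA G e t (t + 1)) hed ht]
  · exact h3
  · intro f s _ hs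
    unfold PA
    constructor
    · rintro ⟨h5, h6⟩
      refine ⟨h5, ?_⟩
      rintro ⟨h7, h8⟩
      have := h6 h7
      omega
    · rintro ⟨h5, h6⟩
      refine ⟨h5, fun h8 => ?_⟩
      by_contra hno
      exact h6 ⟨h8, by omega⟩

end Pool.Agent.Helper43.HM
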